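import Pool.Agent.MP_caba0b_al.H43.Iface

namespace Pool.Agent.MP_caba0b_al.H82

open Equiv Pool.Agent.MP_caba0b_al.H43

variable {n : ℕ}

abbrev Rg (n : ℕ) := AddMonoidAlgebra ℝ (Wt n)

noncomputable def aD (n : ℕ) : Rg n :=
  ∑ π : Perm (Fin n), AddMonoidAlgebra.single (del n ∘ π) ((Perm.sign π : ℤ) : ℝ)

lemma coeff_mul_aD (f : Rg n) (ν : Wt n) : (f * aD n).coeff ν = adel f.coeff ν := by
  rw [aD, Finset.mul_sum, AddMonoidAlgebra.coeff_sum, Finsupp.finsetSum_apply, adel]
  refine Finset.sum_congr rfl fun π _ => ?_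
  rw [AddMonoidAlgebra.coeff_mul_single_apply, mul_comm, sub_eq_add_neg]

lemma aD_coeff (ν : Wt n) : (aD n).coeff ν = alt (del n) ν := by
  classical
  rw [aD, AddMonoidAlgebra.coeff_sum, Finsupp.finsetSum_apply, alt]
  refine Finset.sum_congr rfl fun π _ => ?_
  rw [AddMonoidAlgebra.coeff_single, Finsupp.single_apply]
  simp only [eq_comm]

lemma sign_sq (σ : Perm (Fin n)) : ((Perm.sign σ : ℤ) : ℝ) * ((Perm.sign σ : ℤ) : ℝ) = 1 := by
  rw [← Int.cast_mul, ← Units.val_mul, Int.units_mul_self]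
  simp

lemma sign_abs (σ : Perm (Fin n)) : |((Perm.sign σ : ℤ) : ℝ)| = 1 := by
  rcases Int.units_eq_one_or (Perm.sign σ) with h | h <;> simp [h]

lemma alt_perm (l ν : Wt n) (σ : Perm (Fin n)) :
    alt l (ν ∘ σ) = ((Perm.sign σ : ℤ) : ℝ) * alt l ν := by
  rw [alt, alt, Finset.mul_sum, ← Equiv.sum_comp (Equiv.mulRight σ)]
  refine Finset.sum_congr rfl fun ρ _ => ?_
  have h : (ν ∘ σ = l ∘ (Equiv.mulRight σ ρ)) ↔ ν = l ∘ ρ := by
    constructor
    · intro h
      funext i
      simpa using congrFun h (σ.symm i)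
    · rintro rfl
      rfl
  by_cases hν : ν = l ∘ ρ
  · rw [if_pos (h.2 hν), if_pos hν]
    simp [mul_comm]
  · rw [if_neg (fun h' => hν (h.1 h')), if_neg hν, mul_zero]

lemma adel_perm (f : Wt n → ℝ) (ν : Wt n) (σ : Perm (Fin n)) :
    adel f (ν ∘ σ) = ((Perm.sign σ : ℤ) : ℝ) * adel (fun μ => f (μ ∘ σ)) ν := by
  rw [adel, adel, Finset.mul_sum, ← Equiv.sum_comp (Equiv.mulRight σ)]
  refine Finset.sum_congr rfl fun ρ _ => ?_
  have h : ν ∘ σ - del n ∘ (Equiv.mulRight σ ρ) = (ν - del n ∘ ρ) ∘ σ := rfl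
  rw [h]
  simp only [Equiv.coe_mulRight, Perm.sign_mul, Units.val_mul, Int.cast_mul]
  ring

lemma alt_strict {l l' : Wt n} (hl : StrictMono l) (hl' : StrictMono l') :
    alt l l' = if l' = l then 1 else 0 := by
  rw [alt, Finset.sum_eq_single (1 : Perm (Fin n))]
  · simp
  · intro π _ hπ
    rw [if_neg]
    intro h
    apply hπ
    have h1 : StrictMono π := fun a b hab => hl.lt_iff_lt.1 (by
      have := hl' hab
      rw [h] at this
      exact this)
    have h2 : (π : Fin n → Fin n) = id :=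
      (h1.range_inj strictMono_id).1 (by simp [π.surjective.range_eq])
    ext i
    simp [h2]
  · simp

lemma del_strict : StrictMono (del n) := fun a b hab => by
  simp only [del]
  exact_mod_cast hab

lemma aD_coeff_del (π : Perm (Fin n)) : (aD n).coeff (del n ∘ π) ≠ 0 := by
  rw [aD_coeff, alt_perm, alt_strict del_strict del_strict, if_pos rfl, mul_one]
  intro h
  have := sign_abs π
  rw [h] at this
  simp at this

lemma aD_ne : aD n ≠ 0 := by
  intro h
  have := aD_coeff_del (n := n) 1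
  rw [h] at this
  simp at this

lemma adel_inj {f g : Wt n →₀ ℝ} (h : ∀ ν, adel f ν = adel g ν) : f = g := by
  have h1 : (AddMonoidAlgebra.ofCoeff f : Rg n) * aD n = AddMonoidAlgebra.ofCoeff g * aD n := by
    ext ν
    rw [coeff_mul_aD, coeff_mul_aD]
    exact h ν
  exact AddMonoidAlgebra.ofCoeff_injective (mul_right_cancel₀ aD_ne h1)

lemma symA_sym (lam : Wt n) (s : Wt n →₀ ℝ) (hs : IsS lam s) : Sym s := by
  intro σ ν
  let e : Wt n ≃ Wt n := Equiv.arrowCongr σ.symm (Equiv.refl ℤ)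
  let s' : Wt n →₀ ℝ := Finsupp.equivMapDomain e.symm s
  have h1 : ∀ μ, s' μ = s (μ ∘ σ) := fun μ => rfl
  have h2 : s' = s := by
    refine adel_inj fun μ => ?_
    have h3 := adel_perm s μ σ
    rw [hs, alt_perm, ← hs] at h3
    have h4 : (fun μ => s (μ ∘ σ)) = s' := funext fun μ => (h1 μ).symm
    rw [h4] at h3
    have h5 := congrArg (fun x => ((Perm.sign σ : ℤ) : ℝ) * x) h3
    simp only [← mul_assoc, sign_sq, one_mul] at h5
    exact h5.symm
  rw [← h1, h2]

lemma symA_supp (lam : Wt n) (s : Wt n →₀ ℝ) (hs : IsS lam s) (ν : Wt n) (hν : s ν ≠ 0) :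
    Dom ν lam := by
  classical
  intro ξ
  let φ : Wt n → ℝ := fun μ => ∑ i, ξ i * μ i
  have hφ : ∀ a b, φ (a + b) = φ a + φ b := fun a b => by
    simp [φ, mul_add, Finset.sum_add_distrib]
  obtain ⟨a₁, ha₁, hA⟩ := s.support.exists_max_image φ ⟨ν, Finsupp.mem_support_iff.2 hν⟩
  obtain ⟨b₁, hb₁, hB⟩ := (aD n).coeff.support.exists_max_image φ
    ⟨_, Finsupp.mem_support_iff.2 (aD_coeff_del 1)⟩
  obtain ⟨a, ha, b, hb, hu⟩ := UniqueSums.uniqueAdd_of_nonempty
    (A := s.support.filter fun μ => φ μ = φ a₁)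
    (B := (aD n).coeff.support.filter fun μ => φ μ = φ b₁)
    ⟨a₁, Finset.mem_filter.2 ⟨ha₁, rfl⟩⟩ ⟨b₁, Finset.mem_filter.2 ⟨hb₁, rfl⟩⟩
  obtain ⟨ha, ha'⟩ := Finset.mem_filter.1 ha
  obtain ⟨hb, hb'⟩ := Finset.mem_filter.1 hb
  have hu' : UniqueAdd (AddMonoidAlgebra.ofCoeff s : Rg n).coeff.support (aD n).coeff.support
      a b := by
    intro x y hx hy hxy
    have e := congrArg φ hxy
    rw [hφ, hφ] at e
    have e1 := hA x hx
    have e2 := hB y hy
    exact hu (Finset.mem_filter.2 ⟨hx, by linarith⟩) (Finset.mem_filter.2 ⟨hy, by linarith⟩) hxy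
  have h1 := AddMonoidAlgebra.coeff_mul_add_of_uniqueAdd hu'
  rw [coeff_mul_aD] at h1
  have h2 : alt (lam + del n) (a + b) ≠ 0 := by
    rw [← hs]
    exact h1.trans_ne
      (mul_ne_zero (Finsupp.mem_support_iff.1 ha) (Finsupp.mem_support_iff.1 hb))
  obtain ⟨π, -, hπ⟩ := Finset.exists_ne_zero_of_sum_ne_zero h2
  have h3 : a + b = lam ∘ π + del n ∘ π := by
    by_contra hc
    exact hπ (if_neg hc)
  refine ⟨π, ?_⟩
  have e := congrArg φ h3
  rw [hφ, hφ] at e
  have e1 := hA ν (Finsupp.mem_support_iff.2 hν)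
  have e2 := hB _ (Finsupp.mem_support_iff.2 (aD_coeff_del π))
  show φ ν ≤ φ (lam ∘ π)
  linarith

noncomputable def xv (i : Fin n) : Rg n := AddMonoidAlgebra.single (Pi.single i 1) 1

lemma aD_eq : aD n = ∏ i : Fin n, ∏ j ∈ Finset.Ioi i, (xv j - xv i) := by
  rw [← Matrix.det_vandermonde, ← Matrix.det_transpose, Matrix.det_apply, aD]
  refine Finset.sum_congr rfl fun π _ => ?_
  have h : ∏ i, (Matrix.vandermonde (xv (n := n))).transpose (π i) i =
      AddMonoidAlgebra.single (del n ∘ π) 1 := by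
    simp only [Matrix.transpose_apply, Matrix.vandermonde_apply, xv, AddMonoidAlgebra.single_pow,
      one_pow]
    rw [AddMonoidAlgebra.prod_single]
    congr 1
    · funext k
      simp [Finset.sum_apply, Pi.single_apply, del]
    · simp
  rw [h]
  rcases Int.units_eq_one_or (Perm.sign π) with h | h <;> simp [h, AddMonoidAlgebra.single_neg]

def Box (L : ℕ) (f : Rg n) : Prop := ∀ ν, f.coeff ν ≠ 0 → ∀ k, |ν k| ≤ L

lemma coeff_step (f : Rg n) (i j : Fin n) (μ : Wt n) : (f * (xv j - xv i)).coeff μ =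
    f.coeff (μ - Pi.single j 1) - f.coeff (μ - Pi.single i 1) := by
  rw [mul_sub, AddMonoidAlgebra.coeff_sub, Finsupp.sub_apply, xv, xv,
    AddMonoidAlgebra.coeff_mul_single_apply, AddMonoidAlgebra.coeff_mul_single_apply]
  simp [sub_eq_add_neg]

lemma Box.step {L : ℕ} {f : Rg n} (h : Box L f) (i j : Fin n) :
    Box (L + 1) (f * (xv j - xv i)) := by
  intro ν hν k
  have key : ∀ m : Fin n, f.coeff (ν - Pi.single m 1) ≠ 0 → |ν k| ≤ ((L + 1 : ℕ) : ℤ) := by
    intro m hm
    have h1 := h _ hm k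
    have h2 : |(Pi.single m 1 : Wt n) k| ≤ 1 := by
      rw [Pi.single_apply]
      split_ifs <;> simp
    rw [Pi.sub_apply] at h1
    have h3 := abs_add_le (ν k - (Pi.single m 1 : Wt n) k) ((Pi.single m 1 : Wt n) k)
    rw [sub_add_cancel] at h3
    push_cast
    linarith
  rw [coeff_step] at hν
  by_cases h1 : f.coeff (ν - Pi.single j 1) = 0
  · refine key i fun h2 => hν ?_
    rw [h1, h2, sub_zero]
  · exact key j h1

lemma Box.div {L : ℕ} {f : Rg n} (h : Box L f) {i j : Fin n} (hij : i ≠ j) {B : ℝ}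
    (hB : ∀ μ, |(f * (xv j - xv i)).coeff μ| ≤ B) (ν : Wt n) :
    |f.coeff ν| ≤ (2 * L + 1) * B := by
  have hB0 : 0 ≤ B := (abs_nonneg _).trans (hB 0)
  let u : Wt n := Pi.single j 1 - Pi.single i 1
  have h1 : ∀ k : ℕ, |f.coeff ν| ≤ k * B + |f.coeff (ν + k • u)| := by
    intro k
    induction k with
    | zero => simp
    | succ k ih =>
      have h2 := hB (ν + k • u + Pi.single j 1)
      rw [coeff_step, add_sub_cancel_right] at h2
      have e : ν + k • u + Pi.single j 1 - Pi.single i 1 = ν + (k + 1) • u := by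
        rw [succ_nsmul]
        simp only [u]
        abel
      rw [e] at h2
      have h3 := abs_sub_abs_le_abs_sub (f.coeff (ν + k • u)) (f.coeff (ν + (k + 1) • u))
      push_cast
      linarith
  by_cases hν : f.coeff ν = 0
  · rw [hν, abs_zero]
    positivity
  · have h2 : f.coeff (ν + (2 * L + 1) • u) = 0 := by
      by_contra hc
      have h3 := abs_le.1 (h _ hc j)
      have h4 := abs_le.1 (h _ hν j)
      have h5 : (ν + (2 * L + 1) • u) j = ν j + (2 * L + 1) := by
        simp [u, hij.symm]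
      rw [h5] at h3
      omega
    have h3 := h1 (2 * L + 1)
    rw [h2, abs_zero, add_zero] at h3
    exact_mod_cast h3

lemma Box.divAll {ι : Type} (a b : ι → Fin n) (P : Finset ι) (hP : ∀ p ∈ P, a p ≠ b p) {B : ℝ} :
    ∀ (L : ℕ) (f : Rg n), Box L f →
      (∀ μ, |(f * ∏ p ∈ P, (xv (b p) - xv (a p))).coeff μ| ≤ B) →
      ∀ ν, |f.coeff ν| ≤ (2 * (L + P.card) + 1) ^ P.card * B := by
  classical
  induction P using Finset.induction_on with
  | empty =>
    intro L f _ hB ν
    simpa using hB ν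
  | insert p P hp ih =>
    intro L f h hB ν
    have hB0 : 0 ≤ B := (abs_nonneg _).trans (hB 0)
    rw [Finset.prod_insert hp, ← mul_assoc] at hB
    have h1 := ih (fun q hq => hP q (Finset.mem_insert_of_mem hq)) (L + 1) _
      (h.step (a p) (b p)) hB
    refine (h.div (hP p (Finset.mem_insert_self _ _)) h1 ν).trans ?_
    rw [Finset.card_insert_of_notMem hp, pow_succ, ← mul_assoc]
    refine mul_le_mul_of_nonneg_right ?_ hB0
    push_cast
    rw [mul_comm, show (2 * ((L : ℝ) + 1 + P.card) + 1) = 2 * (L + (P.card + 1)) + 1 by ring]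
    refine mul_le_mul_of_nonneg_left ?_ (by positivity)
    have : (0 : ℝ) ≤ P.card := by positivity
    linarith

lemma abs_alt_le (l ν : Wt n) : |alt l ν| ≤ n.factorial := by
  refine (Finset.abs_sum_le_sum_abs _ _).trans ?_
  calc ∑ π : Perm (Fin n), |if ν = l ∘ π then ((Perm.sign π : ℤ) : ℝ) else 0|
      ≤ ∑ _π : Perm (Fin n), (1 : ℝ) := Finset.sum_le_sum fun π _ => by
        split_ifs
        · exact (sign_abs π).le
        · simp
    _ = n.factorial := by simp [Fintype.card_perm]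

lemma symA_size : ∃ (C : ℝ) (e : ℕ), ∀ (lam : Wt n) (s : Wt n →₀ ℝ) (R : ℝ), IsS lam s → 1 ≤ R →
    nsq lam ≤ R ^ 2 → wn (fun _ => 1) s ≤ C * R ^ e := by
  classical
  let P : Finset (Σ _ : Fin n, Fin n) := Finset.univ.sigma fun i => Finset.Ioi i
  refine ⟨5 ^ n * ((5 + 2 * P.card) ^ P.card * n.factorial), n + P.card, ?_⟩
  intro lam s R hs hR hl
  set L := ⌈R⌉₊ with hL
  have hL1 : R ≤ L := Nat.le_ceil R
  have hL2 : (L : ℝ) ≤ 2 * R := by linarith [Nat.ceil_lt_add_one (show 0 ≤ R by linarith)]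
  have hlam : ∀ i, |(lam i : ℝ)| ≤ R := fun i =>
    abs_le_of_sq_le_sq ((Finset.single_le_sum (f := fun i => (lam i : ℝ) ^ 2)
      (fun _ _ => sq_nonneg _) (Finset.mem_univ i)).trans hl) (by linarith)
  have hbox : Box L (AddMonoidAlgebra.ofCoeff s : Rg n) := by
    intro ν hν k
    obtain ⟨π, hπ⟩ := symA_supp lam s hs ν hν (Pi.single k 1)
    obtain ⟨ρ, hρ⟩ := symA_supp lam s hs ν hν (Pi.single k (-1))
    simp only [Pi.single_apply, ite_mul, zero_mul, Finset.sum_ite_eq', Finset.mem_univ,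
      if_true] at hπ hρ
    have h1 := abs_le.1 (hlam (π k))
    have h2 := abs_le.1 (hlam (ρ k))
    have h3 : |(ν k : ℝ)| ≤ L := abs_le.2 ⟨by linarith, by linarith⟩
    exact_mod_cast h3
  have hb := Box.divAll (fun p : Σ _ : Fin n, Fin n => p.1) (fun p => p.2) P
    (fun p hp => (Finset.mem_Ioi.1 (Finset.mem_sigma.1 hp).2).ne) (B := n.factorial) L _ hbox (by
      intro μ
      rw [← Finset.prod_sigma' Finset.univ (fun i => Finset.Ioi i) (fun i j => xv j - xv i),
        ← aD_eq, coeff_mul_aD]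
      exact (congrArg abs (hs μ)).trans_le (abs_alt_le _ _))
  have hsub : s.support ⊆ Fintype.piFinset fun _ : Fin n => Finset.Icc (-(L : ℤ)) L := by
    intro ν hν
    rw [Fintype.mem_piFinset]
    intro k
    exact Finset.mem_Icc.2 (abs_le.1 (hbox ν (Finsupp.mem_support_iff.1 hν) k))
  rw [wn_eq_sum s hsub]
  have hcard : ((Fintype.piFinset fun _ : Fin n => Finset.Icc (-(L : ℤ)) L).card : ℝ) =
      (2 * L + 1) ^ n := by
    rw [Fintype.card_piFinset, Finset.prod_const, Finset.card_univ, Fintype.card_fin,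
      Int.card_Icc, show ((L : ℤ) + 1 - -(L : ℤ)).toNat = 2 * L + 1 by omega]
    push_cast
    ring
  have hN : (0 : ℝ) ≤ P.card := by positivity
  calc ∑ ν ∈ Fintype.piFinset fun _ : Fin n => Finset.Icc (-(L : ℤ)) L, |s ν| * 1
      ≤ ∑ _ν ∈ Fintype.piFinset fun _ : Fin n => Finset.Icc (-(L : ℤ)) L,
          (2 * ((L : ℝ) + P.card) + 1) ^ P.card * n.factorial :=
        Finset.sum_le_sum fun ν _ => by rw [mul_one]; exact hb ν
    _ = (2 * L + 1) ^ n * ((2 * ((L : ℝ) + P.card) + 1) ^ P.card * n.factorial) := by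
        rw [Finset.sum_const, nsmul_eq_mul, hcard]
    _ ≤ (5 * R) ^ n * (((5 + 2 * P.card) * R) ^ P.card * n.factorial) := by
        gcongr
        · linarith
        · nlinarith
    _ = 5 ^ n * ((5 + 2 * P.card) ^ P.card * n.factorial) * R ^ (n + P.card) := by
        rw [mul_pow, mul_pow, pow_add]
        ring

lemma anti_ext {A B : Wt n → ℝ}
    (hA : ∀ ν (σ : Perm (Fin n)), A (ν ∘ σ) = ((Perm.sign σ : ℤ) : ℝ) * A ν)
    (hB : ∀ ν (σ : Perm (Fin n)), B (ν ∘ σ) = ((Perm.sign σ : ℤ) : ℝ) * B ν)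
    (h : ∀ l, StrictMono l → A l = B l) (ν : Wt n) : A ν = B ν := by
  by_cases hν : Function.Injective ν
  · have h1 := h _ ((Tuple.monotone_sort ν).strictMono_of_injective
      (hν.comp (Tuple.sort ν).injective))
    rw [hA, hB] at h1
    have h5 := congrArg (fun x => ((Perm.sign (Tuple.sort ν) : ℤ) : ℝ) * x) h1
    simpa only [← mul_assoc, sign_sq, one_mul] using h5
  · obtain ⟨i, j, hij, hne⟩ := Function.not_injective_iff.1 hν
    have e : ν ∘ Equiv.swap i j = ν := by
      funext k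
      exact Equiv.apply_swap_eq_self hij k
    have h1 := hA ν (Equiv.swap i j)
    have h2 := hB ν (Equiv.swap i j)
    rw [e, Perm.sign_swap hne] at h1 h2
    simp only [Units.val_neg, Units.val_one, Int.cast_neg, Int.cast_one] at h1 h2
    linarith

lemma mono_sub_del {l : Wt n} (hl : StrictMono l) : Monotone (l - del n) := by
  cases n with
  | zero => exact fun a => a.elim0
  | succ m =>
    refine Fin.monotone_iff_le_succ.2 fun i => ?_
    have := hl (Fin.castSucc_lt_succ (i := i))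
    simp only [Pi.sub_apply, del, Fin.val_castSucc, Fin.val_succ]
    push_cast
    omega

lemma adel_sum (F : Finset (Wt n)) (c : Wt n → ℝ) (s : Wt n → Wt n →₀ ℝ) (ν : Wt n) :
    adel (∑ lam ∈ F, c lam • s lam : Wt n →₀ ℝ) ν = ∑ lam ∈ F, c lam * adel (s lam) ν := by
  have h : ∀ μ, (∑ lam ∈ F, c lam • s lam : Wt n →₀ ℝ) μ = ∑ lam ∈ F, c lam * s lam μ := by
    intro μ
    rw [Finsupp.finsetSum_apply]
    rfl
  simp only [adel, h, Finset.mul_sum]
  rw [Finset.sum_comm]
  refine Finset.sum_congr rfl fun lam _ => Finset.sum_congr rfl fun π _ => by ring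

lemma symA_expand (s : Wt n → Wt n →₀ ℝ) (hs : ∀ lam, Monotone lam → IsS lam (s lam))
    (g : Wt n →₀ ℝ) (hg : Sym g) (F : Finset (Wt n)) (hF : ∀ lam ∈ F, Monotone lam)
    (hF' : ∀ lam, Monotone lam → adel g (lam + del n) ≠ 0 → lam ∈ F) :
    g = ∑ lam ∈ F, adel g (lam + del n) • s lam := by
  classical
  refine adel_inj fun ν => ?_
  have e : ∀ ν, adel (∑ lam ∈ F, adel g (lam + del n) • s lam : Wt n →₀ ℝ) ν =
      ∑ lam ∈ F, adel g (lam + del n) * alt (lam + del n) ν := by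
    intro ν
    rw [adel_sum]
    exact Finset.sum_congr rfl fun lam hl => by rw [hs lam (hF lam hl) ν]
  rw [e]
  refine anti_ext (A := adel g)
    (B := fun ν => ∑ lam ∈ F, adel g (lam + del n) * alt (lam + del n) ν) ?_ ?_ ?_ ν
  · intro ν σ
    rw [adel_perm, show (fun μ => g (μ ∘ σ)) = g from funext (hg σ)]
  · intro ν σ
    rw [Finset.mul_sum]
    refine Finset.sum_congr rfl fun lam _ => ?_
    rw [alt_perm]
    ring
  · intro l hl
    have h1 : ∀ lam ∈ F, adel g (lam + del n) * alt (lam + del n) l =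
        if l - del n = lam then adel g l else 0 := by
      intro lam hlam
      rw [alt_strict (l := lam + del n) ((hF lam hlam).add_strictMono del_strict) hl]
      by_cases h : l = lam + del n
      · rw [if_pos h, if_pos (by rw [h]; abel), mul_one, h]
      · rw [if_neg h, if_neg (fun h' => h (by rw [← h']; abel)), mul_zero]
    rw [Finset.sum_congr rfl h1, Finset.sum_ite_eq]
    split_ifs with h
    · rfl
    · by_contra hc
      exact h (hF' _ (mono_sub_del hl) (by rwa [sub_add_cancel]))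

theorem symA (n : ℕ) : SymA n :=
  ⟨symA_sym, symA_supp, symA_size, symA_expand⟩

end Pool.Agent.MP_caba0b_al.H82
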